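import Mathlib
import Pool.Agent.H98.Spacing
import Pool.Agent.H98.MinSys

set_option autoImplicit false

namespace Pool.Agent.Results.MP_e6b6d5_an.Bundle

open Set Filter Topology Pool.Agent.H98.Spacing Pool.Agent.H98.MinSys
open scoped Classical

universe u

/-- the system has no proper nonempty closed invariant subset. -/
def IsMin {Y : Type u} [TopologicalSpace Y] (S : Y → Y) : Prop :=
  ∀ B : Set Y, IsClosed B → B.Nonempty → MapsTo S B B → B = univ

/-- the only joining is the whole product. -/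
def Disj {X : Type} {Y : Type u} [TopologicalSpace X] [TopologicalSpace Y]
    (T : X → X) (S : Y → Y) : Prop :=
  ∀ J : Set (X × Y), IsClosed J → J.Nonempty → MapsTo (Prod.map T S) J J →
    Prod.fst '' J = univ → Prod.snd '' J = univ → J = univ

/-- the orbit closure. -/
def orbCl {X : Type} [TopologicalSpace X] (T : X → X) (x : X) : Set X :=
  closure (range fun n : ℕ => T^[n] x)

/-- `x` is a minimal point: its orbit closure is a minimal subsystem. -/
def MinPt {X : Type} [TopologicalSpace X] (T : X → X) (x : X) : Prop :=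
  ∀ B ⊆ orbCl T x, IsClosed B → B.Nonempty → MapsTo T B B → B = orbCl T x

def XS : Set ((ℕ → Bool) × (ℕ → Bool)) :=
  {p | ∀ i j, i < j → p.1 i = true → p.1 j = true → p.2 (j - i) = true}

lemma XS_closed : IsClosed XS := by
  have : XS = ⋂ i, ⋂ j, ⋂ _ : i < j, (fun p : (ℕ → Bool) × (ℕ → Bool) =>
      (p.1 i, p.1 j, p.2 (j - i))) ⁻¹' {q | q.1 = true → q.2.1 = true → q.2.2 = true} := by
    ext x
    simp only [XS, mem_setOf_eq, mem_iInter, mem_preimage]
  rw [this]
  exact isClosed_iInter fun i => isClosed_iInter fun j => isClosed_iInter fun _ =>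
    (isClosed_discrete _).preimage (by fun_prop)

instance : CompactSpace XS := isCompact_iff_compactSpace.1 XS_closed.isCompact

def T0 (p : XS) : XS := ⟨(fun i => p.1.1 (i + 1), p.1.2), fun i j hij hi hj => by
  have := p.2 (i + 1) (j + 1) (by omega) hi hj
  rwa [Nat.add_sub_add_right] at this⟩

lemma T0_cont : Continuous T0 := by
  refine Continuous.subtype_mk ?_ _
  fun_prop

lemma T0_iter (n : ℕ) (p : XS) : (∀ i, (T0^[n] p).1.1 i = p.1.1 (i + n)) ∧
    (T0^[n] p).1.2 = p.1.2 := by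
  induction n with
  | zero => exact ⟨fun _ => rfl, rfl⟩
  | succ n ih =>
    rw [Function.iterate_succ_apply']
    refine ⟨fun i => ?_, ih.2⟩
    change (T0^[n] p).1.1 (i + 1) = _
    rw [ih.1, Nat.add_right_comm]; rfl

lemma T0_surj : Function.Surjective T0 := by
  intro x
  refine ⟨⟨(fun i => if i = 0 then false else x.1.1 (i - 1), x.1.2), fun i j hij hi hj => ?_⟩, ?_⟩
  · have hi0 : i ≠ 0 := by rintro rfl; simp at hi
    have hj0 : j ≠ 0 := by omega
    simp only [hi0, hj0, if_false] at hi hj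
    have := x.2 (i - 1) (j - 1) (by omega) hi hj
    have e : j - 1 - (i - 1) = j - i := by omega
    rwa [e] at this
  · ext i
    · simp [T0]
    · rfl

lemma cylX {U : Set XS} {x : XS} (hU : U ∈ 𝓝 x) : ∃ m, ∀ y : XS,
    (∀ i < m, y.1.1 i = x.1.1 i) → (∀ i < m, y.1.2 i = x.1.2 i) → y ∈ U := by
  rw [nhds_subtype_eq_comap, mem_comap] at hU
  obtain ⟨V, hV, hVU⟩ := hU
  obtain ⟨A, hA, B, hB, h⟩ := mem_nhds_prod_iff.1 hV
  obtain ⟨m1, h1⟩ := cyl_pi hA
  obtain ⟨m2, h2⟩ := cyl_pi hB
  exact ⟨max m1 m2, fun y hy1 hy2 => hVU (h ⟨h1 _ fun i hi => hy1 i (lt_max_of_lt_left hi),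
    h2 _ fun i hi => hy2 i (lt_max_of_lt_right hi)⟩)⟩

def e (q i : ℕ) : ℕ := q * i + Nat.sqrt i

lemma e_sep (q : ℕ) {i j : ℕ} (h : i < j) : e q i + q ≤ e q j := by
  have h1 := Nat.sqrt_le_sqrt h.le
  have h2 := Nat.mul_le_mul_left q (Nat.succ_le_of_lt h)
  rw [Nat.mul_succ] at h2
  unfold e; omega

lemma disj {Y : Type u} [MetricSpace Y] [CompactSpace Y] {S : Y → Y} (hS : Continuous S)
    (hm : IsMin S) : Disj T0 S := by
  intro J hJ _ hi h1 _
  refine eq_univ_of_forall fun ⟨x, y0⟩ => ?_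
  rw [← hJ.closure_eq, mem_closure_iff_nhds]
  intro W hW
  obtain ⟨A, hA, B, hB, hAB⟩ := mem_nhds_prod_iff.1 hW
  obtain ⟨m, hm1⟩ := cylX hA
  obtain ⟨V, hVB, hV, hy0⟩ := mem_nhds_iff.1 hB
  let z : XS := ⟨(fun n => decide (∃ a i, i < m ∧ x.1.1 i = true ∧ n = e (2 * m + 1) a + i),
    fun d => if d < m then x.1.2 d else true), fun i j hij hi hj => by
      simp only [decide_eq_true_eq] at hi hj
      obtain ⟨a, s, hs, hxs, rfl⟩ := hi
      obtain ⟨b, t, ht, hxt, rfl⟩ := hj
      simp only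
      split_ifs with h
      · rcases lt_trichotomy a b with hab | rfl | hab
        · have := e_sep (2 * m + 1) hab; omega
        · have := x.2 s t (by omega) hxs hxt
          have e1 : e (2 * m + 1) a + t - (e (2 * m + 1) a + s) = t - s := by omega
          rwa [e1]
        · have := e_sep (2 * m + 1) hab; omega
      · rfl⟩
  obtain ⟨⟨z', y⟩, hzy, rfl : z' = z⟩ := (h1 ▸ mem_univ z : z ∈ Prod.fst '' J)
  obtain ⟨n0, K, hK⟩ := residue hS hm (q := 2 * m + 1) (by omega) y hV ⟨y0, hy0⟩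
  obtain ⟨r, hr⟩ : ∃ r, r = n0 + (2 * m + 1) * K := ⟨_, rfl⟩
  obtain ⟨k, hk, hkV⟩ := hK (r * r + K)
  have hKr : K ≤ r := by rw [hr]; nlinarith
  have he : n0 + (2 * m + 1) * (r * r + K + k) = e (2 * m + 1) (r * r + k) := by
    have : Nat.sqrt (r * r + k) = r := by
      symm; rw [Nat.eq_sqrt]; constructor
      · omega
      · nlinarith
    rw [e, this]
    nth_rewrite 5 [hr]
    ring
  rw [he] at hkV
  refine ⟨_, hAB ?_, hi.iterate (e (2 * m + 1) (r * r + k)) hzy⟩
  rw [Prod.map_iterate]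
  refine ⟨hm1 _ (fun i hi => ?_) (fun i hi => ?_), hVB hkV⟩
  · change (T0^[_] z).1.1 i = _
    rw [(T0_iter _ _).1]
    change decide _ = _
    by_cases hx : x.1.1 i = true
    · rw [hx, decide_eq_true_eq]
      exact ⟨_, i, hi, hx, add_comm _ _⟩
    · rw [Bool.not_eq_true] at hx
      rw [hx, decide_eq_false_iff_not]
      rintro ⟨b, t, ht, hxt, h⟩
      rcases lt_trichotomy b (r * r + k) with hab | rfl | hab
      · have := e_sep (2 * m + 1) hab; omega
      · have : i = t := by omega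
        rw [this, hxt] at hx
        cases hx
      · have := e_sep (2 * m + 1) hab; omega
  · change (T0^[_] z).1.2 i = _
    rw [(T0_iter _ _).2]
    simp [z, hi]

theorem result : ∃ (X : Type) (_ : MetricSpace X) (_ : CompactSpace X) (T : X → X),
    Continuous T ∧ Function.Surjective T ∧
    (∀ (Y : Type u) [MetricSpace Y] [CompactSpace Y] (S : Y → Y), Continuous S →
      Function.Surjective S → IsMin S → Disj T S) ∧
    ¬ ∃ Ω : Set X, Dense Ω ∧ IsGδ Ω ∧
      ∀ x ∈ Ω, orbCl T x ⊆ closure {z ∈ orbCl T x | MinPt T z} := by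
  refine ⟨XS, TopologicalSpace.metrizableSpaceMetric XS, (inferInstance : CompactSpace XS), T0,
    T0_cont, T0_surj, fun Y _ _ S hS _ hm => disj hS hm, ?_⟩
  rintro ⟨Ω, hd, hg, hΩ⟩
  have c1 : ∀ i, Continuous fun p : XS => p.1.1 i := fun i => by fun_prop
  have c2 : ∀ i, Continuous fun p : XS => p.1.2 i := fun i => by fun_prop
  let O : ℕ → Set XS := fun L =>
    {p | (∃ i, p.1.1 i = true) ∧ ∃ a, ∀ i < L, p.1.2 (a + 1 + i) = false}
  have hO : ∀ L, IsOpen (O L) := by
    intro L
    have : O L = (⋃ i, (fun p : XS => p.1.1 i) ⁻¹' {true}) ∩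
        ⋃ a, ⋂ i ∈ Finset.range L, (fun p : XS => p.1.2 (a + 1 + i)) ⁻¹' {false} := by
      ext p; simp [O]
    rw [this]
    exact (isOpen_iUnion fun i => (isOpen_discrete _).preimage (c1 i)).inter
      (isOpen_iUnion fun a => isOpen_biInter_finset fun i _ => (isOpen_discrete _).preimage (c2 _))
  have hOd : ∀ L, Dense (O L) := by
    intro L x
    rw [mem_closure_iff_nhds]
    intro U hU
    obtain ⟨m, hm⟩ := cylX hU
    refine ⟨⟨(fun i => if i < m then x.1.1 i else decide (i = 2 * m),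
      fun d => if d < m then x.1.2 d else decide (d ≤ 2 * m)), fun i j hij hi hj => ?_⟩,
      hm _ (fun i hi => by simp [hi]) (fun i hi => by simp [hi]),
      ⟨2 * m, ?_⟩, 2 * m, fun i _ => ?_⟩
    · simp only at hi hj ⊢
      by_cases h1 : i < m <;> by_cases h2 : j < m <;> by_cases h3 : j - i < m <;>
        simp only [h1, h2, h3, if_true, if_false, decide_eq_true_eq] at hi hj ⊢ <;>
        first
          | omega
          | exact x.2 i j hij hi hj
    · have : ¬ 2 * m < m := by omega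
      simp [this]
    · have h1 : ¬ 2 * m + 1 + i < m := by omega
      have h2 : ¬ 2 * m + 1 + i ≤ 2 * m := by omega
      simp [h1, h2]
  haveI : Nonempty XS := ⟨⟨(fun _ => false, fun _ => false), fun _ _ _ h => by simp at h⟩⟩
  obtain ⟨p, hp1, hp2⟩ := (hd.inter_of_Gδ hg (IsGδ.iInter fun L => (hO L).isGδ)
    (dense_iInter_of_isOpen hO hOd)).nonempty
  rw [mem_iInter] at hp2
  obtain ⟨i1, hi1⟩ := (hp2 0).1
  have hcl : IsClosed {z : XS | z.1.1 i1 = false} := isClosed_eq (c1 i1) continuous_const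
  have key : {z ∈ orbCl T0 p | MinPt T0 z} ⊆ {z : XS | z.1.1 i1 = false} := by
    rintro z ⟨hz1, hz2⟩
    by_contra hcon
    have hz3 : z.1.1 i1 = true := by simpa using hcon
    have hz4 : z.1.2 = p.1.2 := by
      refine closure_minimal (t := {z : XS | z.1.2 = p.1.2}) ?_
        (isClosed_eq (by fun_prop) continuous_const) hz1
      rintro _ ⟨n, rfl⟩
      exact (T0_iter n p).2
    let o : XS := ⟨(fun _ => false, p.1.2), fun _ _ _ h => by simp at h⟩
    have ho : o ∈ orbCl T0 z := by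
      rw [orbCl, mem_closure_iff_nhds]
      intro U hU
      obtain ⟨m, hm⟩ := cylX hU
      obtain ⟨a, ha⟩ := (hp2 m).2
      refine ⟨T0^[i1 + a + 1] z, hm _ (fun i hi => ?_) (fun i _ => ?_), _, rfl⟩
      · rw [(T0_iter _ _).1]
        by_contra h
        have h2 := z.2 i1 (i + (i1 + a + 1)) (by omega) hz3 (by simpa [o] using h)
        have e1 : i + (i1 + a + 1) - i1 = a + 1 + i := by omega
        rw [e1, hz4, ha i hi] at h2
        cases h2
      · rw [(T0_iter _ _).2, hz4]
    have h5 := hz2 {o} (singleton_subset_iff.2 ho) isClosed_singleton (singleton_nonempty _)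
      (by rintro _ rfl; rfl)
    have h6 : z ∈ orbCl T0 z := subset_closure ⟨0, rfl⟩
    rw [← h5, mem_singleton_iff] at h6
    rw [h6] at hz3
    cases hz3
  have : p.1.1 i1 = false := closure_minimal key hcl (hΩ p hp1 (subset_closure ⟨0, rfl⟩))
  rw [hi1] at this
  cases this

end Pool.Agent.Results.MP_e6b6d5_an.Bundle
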